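import Mathlib

set_option autoImplicit false

open Set Filter Topology MeasureTheory Cardinal
open scoped symmDiff ENNReal

noncomputable section

namespace Pool.Agent.H877Z.Hinge

/-- index set of coordinates -/
abbrev Ix : Type := Set unitInterval

/-- sample space -/
abbrev Om : Type := Ix → unitInterval

/-- product measure -/
def mu : Measure Om := Measure.infinitePi fun _ : Ix => (volume : Measure unitInterval)

instance : IsProbabilityMeasure mu := by unfold mu; infer_instance

/-- the measure algebra -/
abbrev M : Type := MeasuredSets mu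

theorem ms (p : M) : MeasurableSet (p : Set Om) := p.2

theorem dist_le_one (p q : M) : dist p q ≤ 1 := by
  rw [MeasuredSets.dist_def]; exact measureReal_le_one

instance : CompleteSpace M := by
  refine Metric.complete_of_convergent_controlled_sequences (fun n => (1 / 2) ^ n)
    (fun n => by positivity) fun u hu => ?_
  let s : M := ⟨⋃ n, ⋂ k, (u (k + n) : Set Om), MeasurableSet.iUnion fun n =>
    MeasurableSet.iInter fun k => ms _⟩
  have sub : ∀ n, (u n : Set Om) ∆ (s : Set Om) ⊆ ⋃ k, (u (k + n) : Set Om) ∆ (u (k + 1 + n)) := by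
    intro n a ha
    by_contra hc
    simp only [mem_iUnion, not_exists, mem_symmDiff, not_or, not_and, not_not] at hc
    have e : ∀ k, a ∈ (u (k + n) : Set Om) ↔ a ∈ (u n : Set Om) := fun k => by
      induction k with
      | zero => rw [zero_add]
      | succ k ih => rw [← ih]; exact ⟨(hc k).2, (hc k).1⟩
    have e2 : a ∈ (s : Set Om) ↔ a ∈ (u n : Set Om) := by
      change a ∈ ⋃ n, ⋂ k, (u (k + n) : Set Om) ↔ _
      simp only [mem_iUnion, mem_iInter]
      refine ⟨fun ⟨m, hm⟩ => (e m).1 (by rw [add_comm]; exact hm n), fun h => ⟨n, fun k => (e k).2 h⟩⟩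
    rw [mem_symmDiff, e2] at ha
    tauto
  refine ⟨s, tendsto_iff_dist_tendsto_zero.2 ?_⟩
  have t : Tendsto (fun n : ℕ => 2 * (1 / 2 : ℝ) ^ n) atTop (𝓝 (2 * 0)) :=
    (tendsto_pow_atTop_nhds_zero_of_lt_one (by norm_num) (by norm_num)).const_mul 2
  rw [mul_zero] at t
  refine squeeze_zero (fun _ => dist_nonneg) (fun n => ?_) t
  have h1 : HasSum (fun k : ℕ => (1 / 2 : ℝ) ^ (k + n)) (2 * (1 / 2) ^ n) := by
    simpa only [pow_add] using hasSum_geometric_two.mul_right ((1 / 2 : ℝ) ^ n)
  rw [dist_edist]
  refine ENNReal.toReal_le_of_le_ofReal (by positivity) ?_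
  rw [← h1.tsum_eq, ENNReal.ofReal_tsum_of_nonneg (fun _ => by positivity) h1.summable]
  refine (measure_mono (sub n)).trans ((measure_iUnion_le _).trans (ENNReal.tsum_le_tsum fun k => ?_))
  rw [← MeasuredSets.edist_def, edist_dist]
  exact ENNReal.ofReal_le_ofReal (hu (k + n) _ _ le_rfl (by omega)).le

open Classical in
/-- first argument on `J`, second argument off `J` -/
def pw (J : Set Ix) (a b : Om) : Om := fun i => if i ∈ J then a i else b i

theorem measurable_pw (J : Set Ix) : Measurable fun z : Om × Om => pw J z.1 z.2 := by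
  refine measurable_pi_lambda _ fun i => ?_
  unfold pw
  split_ifs <;> fun_prop

theorem map_pw (J : Set Ix) : (mu.prod mu).map (fun z : Om × Om => pw J z.1 z.2) = mu := by
  classical
  refine Measure.eq_infinitePi _ fun s t ht => ?_
  rw [Measure.map_apply (measurable_pw J) (MeasurableSet.pi s.countable_toSet fun i _ => ht i)]
  have : (fun z : Om × Om => pw J z.1 z.2) ⁻¹' (Set.pi s t) =
      (Set.pi (s.filter (· ∈ J)) t) ×ˢ (Set.pi (s.filter (· ∉ J)) t) := by
    ext z
    simp only [mem_preimage, Set.mem_pi, Finset.mem_coe, mem_prod, Finset.mem_filter, pw]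
    constructor
    · intro h
      exact ⟨fun i hi => by simpa [hi.2] using h i hi.1, fun i hi => by simpa [hi.2] using h i hi.1⟩
    · intro h i hi
      split_ifs with c
      · exact h.1 i ⟨hi, c⟩
      · exact h.2 i ⟨hi, c⟩
  rw [this, Measure.prod_prod, mu, Measure.infinitePi_pi _ (fun i _ => ht i),
    Measure.infinitePi_pi _ (fun i _ => ht i), Finset.prod_filter_mul_prod_filter_not]

/-- the section of a set obtained by freezing the coordinates off `J` -/
def sec (J : Set Ix) (p : M) (b : Om) : M :=
  ⟨{a | pw J a b ∈ (p : Set Om)}, ((measurable_pw J).comp measurable_prodMk_right) (ms p)⟩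

theorem mem_sec (J : Set Ix) (p : M) (a b : Om) :
    a ∈ (sec J p b : Set Om) ↔ pw J a b ∈ (p : Set Om) := Iff.rfl

theorem sec_sec {J J' : Set Ix} (h : J ⊆ J') (p : M) (b c : Om) :
    sec J (sec J' p c) b = sec J p (pw J' b c) := by
  refine Subtype.ext (Set.ext fun a => ?_)
  change pw J' (pw J a b) c ∈ (p : Set Om) ↔ pw J a (pw J' b c) ∈ (p : Set Om)
  have : pw J' (pw J a b) c = pw J a (pw J' b c) := by
    funext i
    unfold pw
    by_cases h1 : i ∈ J
    · simp [h1, h h1]
    · simp [h1]
  rw [this]

theorem sec_sec' {J J' : Set Ix} (h : J ⊆ J') (p : M) (b c : Om) :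
    sec J' (sec J p c) b = sec J p c := by
  refine Subtype.ext (Set.ext fun a => ?_)
  change pw J (pw J' a b) c ∈ (p : Set Om) ↔ pw J a c ∈ (p : Set Om)
  have : pw J (pw J' a b) c = pw J a c := by
    funext i
    unfold pw
    by_cases h1 : i ∈ J
    · simp [h1, h h1]
    · simp [h1]
  rw [this]

theorem integrable_bdd {f : Om → ℝ} (hf : Measurable f) {C : ℝ} (h : ∀ a, |f a| ≤ C) :
    Integrable f mu :=
  Integrable.of_bound hf.aestronglyMeasurable C (Eventually.of_forall h)

theorem real_eq (J : Set Ix) (p : M) :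
    mu.real (p : Set Om) = ∫ b, mu.real (sec J p b : Set Om) ∂mu := by
  have hm := (measurable_pw J) (ms p)
  have : mu (p : Set Om) = ∫⁻ b, mu (sec J p b : Set Om) ∂mu := by
    have k := Measure.map_apply (μ := mu.prod mu) (measurable_pw J) (ms p)
    rw [map_pw, Measure.prod_apply_symm hm] at k
    exact k
  simp only [Measure.real]
  rw [this]
  exact (integral_toReal (measurable_measure_prodMk_right hm).aemeasurable
    (Eventually.of_forall fun _ => measure_lt_top _ _)).symm

theorem meas_real (J : Set Ix) (p : M) : Measurable fun b => mu.real (sec J p b : Set Om) :=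
  (measurable_measure_prodMk_right ((measurable_pw J) (ms p))).ennreal_toReal

theorem meas_dist (J : Set Ix) (p q : M) : Measurable fun b => dist (sec J p b) (sec J q b) :=
  meas_real J ⟨(p : Set Om) ∆ q, (ms p).symmDiff (ms q)⟩

theorem meas_dist' (J : Set Ix) (p q : M) : Measurable fun b => dist (sec J p b) q :=
  (measurable_measure_prodMk_right (s := ((fun z : Om × Om => pw J z.1 z.2) ⁻¹' p) ∆
    (Prod.fst ⁻¹' q)) (((measurable_pw J) (ms p)).symmDiff (measurable_fst (ms q)))).ennreal_toReal

theorem int_dist (J : Set Ix) (p q : M) : Integrable (fun b => dist (sec J p b) (sec J q b)) mu :=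
  integrable_bdd (meas_dist J p q) fun _ => by rw [abs_of_nonneg dist_nonneg]; exact dist_le_one _ _

theorem int_dist' (J : Set Ix) (p q : M) : Integrable (fun b => dist (sec J p b) q) mu :=
  integrable_bdd (meas_dist' J p q) fun _ => by
    rw [abs_of_nonneg dist_nonneg]; exact dist_le_one _ _

theorem dist_eq (J : Set Ix) (p q : M) : dist p q = ∫ b, dist (sec J p b) (sec J q b) ∂mu :=
  real_eq J ⟨(p : Set Om) ∆ q, (ms p).symmDiff (ms q)⟩

theorem sec_congr (J : Set Ix) {p q : M} (h : dist p q = 0) :
    ∀ᵐ b ∂mu, dist (sec J p b) (sec J q b) = 0 := by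
  rw [dist_eq J] at h
  exact (integral_eq_zero_iff_of_nonneg (fun _ => dist_nonneg) (int_dist J p q)).1 h

theorem sec_btw (J : Set Ix) {p q r : M} (h : dist p q + dist q r = dist p r) :
    ∀ᵐ b ∂mu, dist (sec J p b) (sec J q b) + dist (sec J q b) (sec J r b) =
      dist (sec J p b) (sec J r b) := by
  have := (integral_eq_zero_iff_of_nonneg (f := fun b => dist (sec J p b) (sec J q b) +
      dist (sec J q b) (sec J r b) - dist (sec J p b) (sec J r b))
    (fun b => sub_nonneg.2 (dist_triangle _ _ _))
    (((int_dist J p q).add (int_dist J q r)).sub (int_dist J p r))).1 (by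
      rw [integral_sub (f := fun b => dist (sec J p b) (sec J q b) + dist (sec J q b) (sec J r b))
        ((int_dist J p q).add (int_dist J q r)) (int_dist J p r),
        integral_add (int_dist J p q) (int_dist J q r), ← dist_eq, ← dist_eq, ← dist_eq, h, sub_self])
  filter_upwards [this] with b hb
  exact sub_eq_zero.1 hb

theorem ae_pw (J : Set Ix) {P : Om → Prop} (hP : MeasurableSet {a | P a})
    (h : ∀ᵐ c ∂mu, ∀ᵐ b ∂mu, P (pw J b c)) : ∀ᵐ a ∂mu, P a := by
  have := real_eq J ⟨{a | P a}ᶜ, hP.compl⟩
  rw [integral_congr_ae (g := fun _ => 0) (by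
    filter_upwards [h] with c hc
    exact (measureReal_eq_zero_iff).2 hc), integral_zero] at this
  exact (measureReal_eq_zero_iff).1 this

/-- `p` depends only on the coordinates in `J`, up to a null set -/
def Dep (J : Set Ix) (p : M) : Prop := ∀ᵐ b ∂mu, dist (sec J p b) p = 0

theorem dist_congr {p p' q q' : M} (h : dist p p' = 0) (h' : dist q q' = 0) :
    dist p q = dist p' q' := by
  have a := dist_triangle4 p p' q' q
  have b := dist_triangle4 p' p q q'
  rw [dist_comm q' q] at a
  rw [dist_comm p' p] at b
  linarith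

theorem Dep.dist_eq {J : Set Ix} {v : M} (hv : Dep J v) (w : M) :
    dist w v = ∫ b, dist (sec J w b) v ∂mu := by
  rw [Hinge.dist_eq J]
  refine integral_congr_ae ?_
  filter_upwards [hv] with b hb
  exact dist_congr (dist_self _) hb

theorem Dep.int_le {J : Set Ix} {v : M} (hv : Dep J v) (w : M) :
    ∫ b, dist (sec J w b) w ∂mu ≤ 2 * dist w v := by
  have := integral_mono (int_dist' J w w) ((int_dist' J w v).add (integrable_const (dist w v)))
    fun b => dist_triangle_right (sec J w b) w v
  simp only [Pi.add_apply] at this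
  rw [integral_add (int_dist' J w v) (integrable_const _), ← hv.dist_eq] at this
  simp only [integral_const, probReal_univ, one_smul] at this
  linarith

theorem dep_closed (J : Set Ix) : IsClosed {p | Dep J p} := by
  refine isClosed_of_closure_subset fun w hw => ?_
  refine (integral_eq_zero_iff_of_nonneg (fun _ => dist_nonneg) (int_dist' J w w)).1
    (le_antisymm (le_of_forall_pos_le_add fun ε hε => ?_) (integral_nonneg fun _ => dist_nonneg))
  obtain ⟨v, hv, h⟩ := Metric.mem_closure_iff.1 hw (ε / 2) (by positivity)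
  linarith [Dep.int_le hv w]

theorem mem_of_dist {X : Set M} (hX : IsClosed X) {v w : M} (hv : v ∈ X) (h : dist w v = 0) :
    w ∈ X := by
  rw [← hX.closure_eq, Metric.mem_closure_iff]
  exact fun ε hε => ⟨v, hv, by rwa [h]⟩

theorem Dep.mono {J J' : Set Ix} (h : J ⊆ J') {p : M} (hp : Dep J p) : Dep J' p := by
  obtain ⟨c, hc⟩ := hp.exists
  have : Dep J' (sec J p c) := Eventually.of_forall fun b => by rw [sec_sec' h, dist_self]
  exact mem_of_dist (dep_closed J') this (by rwa [dist_comm])

/-- the mixture of `x` and `y` along the coordinate `i` -/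
def mix (i : Ix) (x y : M) (t : unitInterval) : M :=
  ⟨{a | (a i < t ∧ a ∈ (y : Set Om)) ∨ (¬ a i < t ∧ a ∈ (x : Set Om))}, by
    have : MeasurableSet {a : Om | a i < t} := measurableSet_lt (measurable_pi_apply i) measurable_const
    exact (this.inter (ms y)).union (this.compl.inter (ms x))⟩

theorem mem_mix (i : Ix) (x y : M) (t : unitInterval) (a : Om) : a ∈ (mix i x y t : Set Om) ↔
    (a i < t ∧ a ∈ (y : Set Om)) ∨ (¬ a i < t ∧ a ∈ (x : Set Om)) := Iff.rfl

theorem sec_mix {J : Set Ix} {i : Ix} (hi : i ∉ J) (x y : M) (t : unitInterval) (b : Om) :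
    sec J (mix i x y t) b = if b i < t then sec J y b else sec J x b := by
  refine Subtype.ext (Set.ext fun a => ?_)
  have e : pw J a b i = b i := if_neg hi
  split_ifs with c
  · change _ ∈ (mix i x y t : Set Om) ↔ a ∈ (sec J y b : Set Om)
    rw [mem_mix, e, mem_sec]; tauto
  · change _ ∈ (mix i x y t : Set Om) ↔ a ∈ (sec J x b : Set Om)
    rw [mem_mix, e, mem_sec]; tauto

theorem real_lt (i : Ix) (t : unitInterval) : mu.real {a : Om | a i < t} = t := by
  have := (measurePreserving_eval_infinitePi (fun _ : Ix => (volume : Measure unitInterval))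
    i).measure_preimage (measurableSet_Iio (a := t)).nullMeasurableSet
  rw [unitInterval.volume_Iio] at this
  rw [Measure.real, mu]
  exact (congrArg ENNReal.toReal this).trans (ENNReal.toReal_ofReal t.2.1)

theorem meas_lt (i : Ix) (t : unitInterval) : MeasurableSet {a : Om | a i < t} :=
  measurableSet_lt (measurable_pi_apply i) measurable_const

theorem int_ite (i : Ix) (t : unitInterval) (c : ℝ) :
    Integrable (fun b : Om => if b i < t then c else 0) mu :=
  integrable_bdd (Measurable.ite (meas_lt i t) measurable_const measurable_const) (C := |c|)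
    fun _ => by split_ifs <;> simp

theorem integral_ite (i : Ix) (t : unitInterval) (c : ℝ) :
    ∫ b : Om, (if b i < t then c else 0) ∂mu = t * c := by
  have := integral_indicator_const (μ := mu) c (meas_lt i t)
  rw [real_lt, smul_eq_mul] at this
  rw [← this]
  refine integral_congr_ae (Eventually.of_forall fun b => ?_)
  simp [indicator]

theorem mix_zero (i : Ix) (x y : M) : mix i x y 0 = x :=
  Subtype.ext (Set.ext fun a => by
    change a ∈ (mix i x y 0 : Set Om) ↔ a ∈ (x : Set Om)
    rw [mem_mix]; simp)

theorem mix_one (i : Ix) (x y : M) : dist y (mix i x y 1) = 0 := by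
  refine le_antisymm ?_ dist_nonneg
  have := probReal_compl_eq_one_sub (μ := mu) (meas_lt i 1)
  rw [real_lt] at this
  rw [MeasuredSets.dist_def]
  refine (measureReal_mono (s₂ := {a : Om | a i < 1}ᶜ) fun a ha => ?_).trans (by simp [this])
  rw [mem_symmDiff, mem_mix] at ha
  intro h
  simp only [mem_ofPred_eq] at h
  tauto

theorem mix_dist {J : Set Ix} {i : Ix} (hi : i ∉ J) {x y v : M} (hx : Dep J x) (hy : Dep J y)
    (hv : Dep J v) (t : unitInterval) :
    dist (mix i x y t) v = (1 - t) * dist x v + t * dist y v := by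
  rw [hv.dist_eq, integral_congr_ae
    (g := fun b => dist x v + if b i < t then dist y v - dist x v else 0),
    integral_add (integrable_const _) (int_ite _ _ _), integral_ite]
  · simp only [integral_const, probReal_univ, one_smul]; ring
  · filter_upwards [hx, hy] with b h1 h2
    rw [sec_mix hi]
    split_ifs
    · rw [dist_congr h2 (dist_self v)]; ring
    · rw [dist_congr h1 (dist_self v)]; ring

theorem mix_dist_mix {J : Set Ix} {i : Ix} (hi : i ∉ J) {x y : M} (hx : Dep J x) (hy : Dep J y)
    (s t : unitInterval) : dist (mix i x y s) (mix i x y t) = |(s : ℝ) - t| * dist x y := by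
  wlog h : s ≤ t generalizing s t
  · rw [dist_comm, abs_sub_comm]; exact this t s (not_le.1 h).le
  rw [dist_eq J, integral_congr_ae
    (g := fun b => (if b i < t then dist x y else 0) - if b i < s then dist x y else 0),
    integral_sub (int_ite _ _ _) (int_ite _ _ _), integral_ite, integral_ite,
    abs_of_nonpos (sub_nonpos.2 (by exact_mod_cast h))]
  · ring
  · filter_upwards [hx, hy] with b h1 h2
    rw [sec_mix hi, sec_mix hi]
    by_cases c : b i < s
    · simp [c, c.trans_le h]
    · by_cases c' : b i < t
      · simp [c, c', dist_congr h1 h2]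
      · simp [c, c']

theorem Dep.mix {J : Set Ix} {i : Ix} (hi : i ∈ J) {x y : M} (hx : Dep J x) (hy : Dep J y)
    (t : unitInterval) : Dep J (mix i x y t) := by
  filter_upwards [hx, hy] with b h1 h2
  refine le_antisymm ?_ dist_nonneg
  rw [MeasuredSets.dist_def] at h1 h2 ⊢
  rw [← add_zero (0 : ℝ)]
  nth_rewrite 1 [← h1]
  rw [← h2]
  refine (measureReal_mono fun a ha => ?_).trans (measureReal_union_le _ _)
  have e : pw J a b i = a i := if_pos hi
  simp only [mem_union, mem_symmDiff, mem_sec, mem_mix, e] at ha ⊢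
  tauto

/-- almost every section lies in the closure of `D` -/
abbrev Z (J : Set Ix) (D : Set M) : Set M := {u | ∀ᵐ b ∂mu, Metric.infDist (sec J u b) D = 0}

theorem meas_inf (J : Set Ix) {D : Set M} (hD : D.Countable) (u : M) :
    Measurable fun b => Metric.infDist (sec J u b) D := by
  have := hD.to_subtype
  simp only [Metric.infDist_eq_iInf]
  exact Measurable.iInf fun v => meas_dist' J u v

theorem int_inf (J : Set Ix) {D : Set M} (hD : D.Countable) (hn : D.Nonempty) (u : M) :
    Integrable (fun b => Metric.infDist (sec J u b) D) mu :=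
  integrable_bdd (meas_inf J hD u) (C := 1) fun _ => by
    rw [abs_of_nonneg Metric.infDist_nonneg]
    exact (Metric.infDist_le_dist_of_mem hn.some_mem).trans (dist_le_one _ _)

theorem Z_closed (J : Set Ix) {D : Set M} (hD : D.Countable) (hn : D.Nonempty) :
    IsClosed (Z J D) := by
  refine isClosed_of_closure_subset fun w hw => ?_
  refine (integral_eq_zero_iff_of_nonneg (fun _ => Metric.infDist_nonneg) (int_inf J hD hn w)).1
    (le_antisymm (le_of_forall_pos_le_add fun ε hε => ?_)
      (integral_nonneg fun _ => Metric.infDist_nonneg))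
  obtain ⟨v, hv, h⟩ := Metric.mem_closure_iff.1 hw ε hε
  have := integral_mono_ae (int_inf J hD hn w) (int_dist J w v) (by
    filter_upwards [hv] with b hb
    have := Metric.infDist_le_infDist_add_dist (x := sec J w b) (y := sec J v b) (s := D)
    linarith)
  rw [← dist_eq] at this
  linarith

theorem Z_mono (J : Set Ix) {D D' : Set M} (hn : D.Nonempty) (h : D ⊆ D') : Z J D ⊆ Z J D' :=
  fun u hu => by
    rw [mem_ofPred_eq] at hu ⊢
    filter_upwards [hu] with b hb
    exact le_antisymm (hb ▸ Metric.infDist_le_infDist_of_subset h hn) Metric.infDist_nonneg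

instance : Infinite unitInterval := Set.Icc.infinite zero_lt_one

theorem card_M : #M ≤ #Ix := by
  have hI : ℵ₀ ≤ #Ix := aleph0_le_mk _
  have h1 := MeasurableSpace.cardinal_measurableSet_le
    {B : Set Om | ∃ (i : Ix) (A : Set unitInterval), MeasurableSet A ∧ Function.eval i ⁻¹' A = B}
  rw [← MeasurableSpace.pi_eq_generateFrom_projections] at h1
  have h2 : #{B : Set Om | ∃ (i : Ix) (A : Set unitInterval), MeasurableSet A ∧
      Function.eval i ⁻¹' A = B} ≤ #Ix := by
    refine (mk_le_mk_of_subset (t := range fun z : Ix × Ix => Function.eval z.1 ⁻¹' z.2) ?_).trans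
      (mk_range_le.trans ?_)
    · rintro _ ⟨i, A, -, rfl⟩; exact ⟨(i, A), rfl⟩
    · rw [mk_prod, lift_id, mul_eq_self hI]
  refine h1.trans ((power_le_power_right (max_le h2 ((natCast_lt_aleph0 (n := 2)).le.trans hI))).trans ?_)
  rw [mk_set, ← power_mul, mul_eq_left (aleph0_le_mk _) (aleph0_le_mk _) aleph0_ne_zero]

theorem exists_emb : Nonempty ((M × M) ⊕ Fin 3 ↪ Ix) := by
  have hI : ℵ₀ ≤ #Ix := aleph0_le_mk _
  rw [← Cardinal.le_def, mk_sum, lift_id, lift_id, mk_prod, lift_id]
  refine add_le_of_le hI (mul_le_of_le hI card_M card_M) ?_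
  exact (mk_le_aleph0).trans hI

end Pool.Agent.H877Z.Hinge
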