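import Pool.Agent.H877Z.Hinge.Step

set_option autoImplicit false

open Set Filter Topology

noncomputable section

namespace Pool.Agent.H877Z.Hinge

theorem Good.coord {S : Sys} (g : Good S) {a : M × M} (ha : a ∈ S.A) {u v : M} (hu : On a u)
    (hv : On a v) : dist u v = |dist u (arc a 0) - dist v (arc a 0)| := by
  obtain ⟨s, hs⟩ := hu
  obtain ⟨t, ht⟩ := hv
  rw [dist_congr hs ht, dist_congr hs (dist_self _), dist_congr ht (dist_self _), g.arc_dist a ha,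
    g.arc_dist a ha, g.arc_dist a ha, ← sub_mul, abs_mul, abs_of_pos (g.pos a ha)]
  simp [abs_of_nonneg s.2.1, abs_of_nonneg t.2.1]

/-- the properties of the space used below -/
structure Nice (X : Type) [MetricSpace X] : Prop where
  geo : ∀ x y : X, ∃ γ : ℝ → X, γ 0 = x ∧ γ (dist x y) = y ∧
    ∀ s ∈ Icc (0 : ℝ) (dist x y), ∀ t ∈ Icc (0 : ℝ) (dist x y), dist (γ s) (γ t) = |s - t|
  hinge : ∀ p x y : X, x ≠ p → y ≠ p → ∀ γ δ : ℝ → X,
    (γ 0 = p ∧ γ (dist p x) = x ∧ ∀ s ∈ Icc (0 : ℝ) (dist p x), ∀ t ∈ Icc (0 : ℝ) (dist p x),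
      dist (γ s) (γ t) = |s - t|) →
    (δ 0 = p ∧ δ (dist p y) = y ∧ ∀ s ∈ Icc (0 : ℝ) (dist p y), ∀ t ∈ Icc (0 : ℝ) (dist p y),
      dist (δ s) (δ t) = |s - t|) →
    (∃ C, 0 ≤ C ∧ ∀ s ∈ Ioc (0 : ℝ) (dist p x), ∀ t ∈ Ioc (0 : ℝ) (dist p y),
      s + t - C * (s * t) ≤ dist (γ s) (δ t)) ∨
    ∀ s ∈ Ioc (0 : ℝ) (dist p x), ∀ t ∈ Ioc (0 : ℝ) (dist p y), dist (γ s) (δ t) = |s - t|
  four : ∃ (p : X) (q : Fin 3 → X), (∀ k, dist p (q k) = 1 / 10) ∧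
    ∀ k l, k ≠ l → dist (q k) (q l) = 9 / 50

theorem geo_dist {X : Type} [MetricSpace X] {p x : X} {γ : ℝ → X}
    (h : γ 0 = p ∧ γ (dist p x) = x ∧ ∀ s ∈ Icc (0 : ℝ) (dist p x), ∀ t ∈ Icc (0 : ℝ) (dist p x),
      dist (γ s) (γ t) = |s - t|) {s : ℝ} (hs : s ∈ Ioc (0 : ℝ) (dist p x)) :
    dist p (γ s) = s ∧ dist (γ s) x = dist p x - s := by
  have a := h.2.2 0 ⟨le_rfl, dist_nonneg⟩ s ⟨hs.1.le, hs.2⟩
  have b := h.2.2 s ⟨hs.1.le, hs.2⟩ _ ⟨dist_nonneg, le_rfl⟩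
  rw [h.1, zero_sub, abs_neg, abs_of_pos hs.1] at a
  rw [h.2.1, abs_of_nonpos (sub_nonpos.2 hs.2)] at b
  exact ⟨a, by linarith⟩

theorem nice_of {S : Sys} (g : Good S)
    (hm : ∀ x ∈ S.X, ∀ y ∈ S.X, 0 < dist x y → ∃ a ∈ S.A, On a x ∧ On a y)
    {X : Type} [MetricSpace X] (r : X → M) (r1 : ∀ z, r z ∈ S.X)
    (r2 : ∀ z z', dist (r z) (r z') = dist z z') (r3 : ∀ w ∈ S.X, ∃ z, dist (r z) w = 0) :
    Nice X := by
  have line : ∀ p x : X, x ≠ p → ∀ γ : ℝ → X, (γ 0 = p ∧ γ (dist p x) = x ∧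
      ∀ s ∈ Icc (0 : ℝ) (dist p x), ∀ t ∈ Icc (0 : ℝ) (dist p x), dist (γ s) (γ t) = |s - t|) →
      ∃ a ∈ S.A, On a (r p) ∧ (∀ s ∈ Ioc (0 : ℝ) (dist p x), On a (r (γ s))) ∧
        ((∀ s ∈ Ioc (0 : ℝ) (dist p x), dist (r (γ s)) (arc a 0) = dist (r p) (arc a 0) + s) ∨
        ∀ s ∈ Ioc (0 : ℝ) (dist p x), dist (r (γ s)) (arc a 0) = dist (r p) (arc a 0) - s) := by
    intro p x hx γ hγ
    have d : 0 < dist (r p) (r x) := by rw [r2]; exact dist_pos.2 hx.symm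
    obtain ⟨a, ha, a1, a2⟩ := hm _ (r1 p) _ (r1 x) d
    have on : ∀ s ∈ Ioc (0 : ℝ) (dist p x), On a (r (γ s)) := fun s hs => by
      obtain ⟨e1, e2⟩ := geo_dist hγ hs
      rcases eq_or_lt_of_le hs.2 with e | e
      · rw [e, hγ.2.1]; exact a2
      obtain ⟨b, hb, b1, b2, b3⟩ := g.btw _ (r1 p) _ (r1 (γ s)) _ (r1 x)
        (by rw [r2, r2, r2]; linarith) (by rw [r2, e1]; exact hs.1) (by rw [r2]; linarith)
      rwa [g.uniq a ha b hb _ _ a1 a2 b1 b3 d]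
    refine ⟨a, ha, a1, on, ?_⟩
    have c := g.coord ha a1 a2
    rw [r2] at c d
    rcases le_total (dist (r p) (arc a 0)) (dist (r x) (arc a 0)) with l | l
    · refine .inl fun s hs => ?_
      obtain ⟨e1, e2⟩ := geo_dist hγ hs
      have c1 := g.coord ha a1 (on s hs)
      have c2 := g.coord ha (on s hs) a2
      rw [r2] at c1 c2
      rw [abs_of_nonpos (sub_nonpos.2 l)] at c
      linarith [neg_abs_le (dist (r p) (arc a 0) - dist (r (γ s)) (arc a 0)),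
        neg_abs_le (dist (r (γ s)) (arc a 0) - dist (r x) (arc a 0))]
    · refine .inr fun s hs => ?_
      obtain ⟨e1, e2⟩ := geo_dist hγ hs
      have c1 := g.coord ha a1 (on s hs)
      have c2 := g.coord ha (on s hs) a2
      rw [r2] at c1 c2
      rw [abs_of_nonneg (sub_nonneg.2 l)] at c
      linarith [le_abs_self (dist (r p) (arc a 0) - dist (r (γ s)) (arc a 0)),
        le_abs_self (dist (r (γ s)) (arc a 0) - dist (r x) (arc a 0))]
  refine ⟨fun x y => ?_, fun p x y hx hy γ δ hγ hδ => ?_, ?_⟩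
  · rcases eq_or_ne x y with rfl | h
    · refine ⟨fun _ => x, rfl, rfl, fun s hs t ht => ?_⟩
      rw [dist_self] at hs ht ⊢
      rw [le_antisymm hs.2 hs.1, le_antisymm ht.2 ht.1]; simp
    have d : 0 < dist x y := dist_pos.2 h
    obtain ⟨a, ha, ⟨s0, a1⟩, ⟨t0, a2⟩⟩ := hm _ (r1 x) _ (r1 y) (by rwa [r2])
    choose z hz using fun t => r3 _ (g.arc_mem a ha t)
    have hd : dist x y = |(s0 : ℝ) - t0| * dist a.1 a.2 := by
      rw [← r2, dist_congr a1 a2, g.arc_dist a ha]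
    have mem : ∀ u ∈ Icc (0 : ℝ) (dist x y), s0 + (t0 - s0) * (u / dist x y) ∈ Icc (0 : ℝ) 1 :=
      fun u hu => by
        have u0 : 0 ≤ u / dist x y := div_nonneg hu.1 d.le
        have u1 : u / dist x y ≤ 1 := (div_le_one d).2 hu.2
        constructor <;> nlinarith [s0.2.1, s0.2.2, t0.2.1, t0.2.2]
    refine ⟨fun u => z (projIcc 0 1 zero_le_one (s0 + (t0 - s0) * (u / dist x y))), ?_, ?_,
      fun s hs t ht => ?_⟩
    · rw [← dist_eq_zero, ← r2, dist_congr (hz _) a1]; simp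
    · rw [← dist_eq_zero, ← r2, dist_congr (hz _) a2]; simp [d.ne']
    · rw [← r2, dist_congr (hz _) (hz _), g.arc_dist a ha, projIcc_of_mem _ (mem s hs),
        projIcc_of_mem _ (mem t ht)]
      have : (s0 + (t0 - s0) * (s / dist x y) - (s0 + (t0 - s0) * (t / dist x y)) : ℝ) =
          (t0 - s0) * ((s - t) / dist x y) := by ring
      simp only [this]
      rw [abs_mul, abs_div, abs_of_pos d, abs_sub_comm (t0 : ℝ), mul_right_comm, ← hd]
      field_simp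
  · obtain ⟨a, ha, a1, a2, a3⟩ := line p x hx γ hγ
    obtain ⟨b, hb, b1, b2, b3⟩ := line p y hy δ hδ
    by_cases e : a = b
    · subst e
      have c := fun s hs t ht => (r2 _ _).symm.trans (g.coord ha (a2 s hs) (b2 t ht))
      rcases a3 with a3 | a3 <;> rcases b3 with b3 | b3
      · exact .inr fun s hs t ht => by rw [c s hs t ht, a3 s hs, b3 t ht]; congr 1; ring
      · exact .inl ⟨0, le_rfl, fun s hs t ht => by
          rw [c s hs t ht, a3 s hs, b3 t ht]; exact le_trans (by linarith) (le_abs_self _)⟩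
      · exact .inl ⟨0, le_rfl, fun s hs t ht => by
          rw [c s hs t ht, a3 s hs, b3 t ht]; exact le_trans (by linarith) (neg_le_abs _)⟩
      · exact .inr fun s hs t ht => by
          rw [c s hs t ht, a3 s hs, b3 t ht, abs_sub_comm]; congr 1; ring
    · obtain ⟨C, C0, hC⟩ := g.ang a ha b hb e _ a1 b1
      refine .inl ⟨C, C0, fun s hs t ht => ?_⟩
      have := hC _ _ (a2 s hs) (b2 t ht)
      rwa [r2, r2, r2, dist_comm _ p, (geo_dist hγ hs).1, (geo_dist hδ ht).1] at this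
  · obtain ⟨p, hp⟩ := r3 _ g.bot
    choose q hq using fun k => r3 _ (g.pt k)
    exact ⟨p, q, fun k => by rw [← r2, dist_congr hp (hq k), dist_comm, pt_bot],
      fun k l h => by rw [← r2, dist_congr (hq k) (hq l), pt_pt h]⟩

theorem exists_nice : ∃ (X : Type) (_ : MetricSpace X), CompleteSpace X ∧ Nice X := by
  obtain ⟨S, g, hm⟩ := exists_max
  have : CompleteSpace S.X := g.closed.completeSpace_coe
  choose r hr using SeparationQuotient.surjective_mk (X := S.X)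
  refine ⟨SeparationQuotient S.X, inferInstance, inferInstance, nice_of g hm (fun z => (r z).1)
    (fun z => (r z).2) (fun z z' => ?_) fun w hw => ⟨SeparationQuotient.mk ⟨w, hw⟩, ?_⟩⟩
  · rw [← Subtype.dist_eq, ← SeparationQuotient.dist_mk, hr, hr]
  · change dist (r _) ⟨w, hw⟩ = 0
    rw [← SeparationQuotient.dist_mk, hr, dist_self]

theorem ev_mem {a b : ℝ} (ha : 0 < a) (hb : 0 < b) :
    ∀ᶠ q : ℝ × ℝ in 𝓝[>] (0 : ℝ) ×ˢ 𝓝[>] (0 : ℝ), q.1 ∈ Ioc 0 a ∧ q.2 ∈ Ioc 0 b :=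
  Eventually.prod_mk (Ioc_mem_nhdsGT ha) (Ioc_mem_nhdsGT hb)

theorem tendsto_pi {a b C : ℝ} (ha : 0 < a) (hb : 0 < b) (hC : 0 ≤ C) {D : ℝ × ℝ → ℝ}
    (h : ∀ q : ℝ × ℝ, q.1 ∈ Ioc 0 a → q.2 ∈ Ioc 0 b →
      q.1 + q.2 - C * (q.1 * q.2) ≤ D q ∧ 0 ≤ D q ∧ D q ≤ q.1 + q.2) :
    Tendsto (fun q : ℝ × ℝ => Real.arccos ((q.1 ^ 2 + q.2 ^ 2 - D q ^ 2) / (2 * q.1 * q.2)))
      (𝓝[>] (0 : ℝ) ×ˢ 𝓝[>] (0 : ℝ)) (𝓝 Real.pi) := by
  rw [← Real.arccos_neg_one]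
  refine (Real.continuous_arccos.tendsto _).comp ?_
  have t : Tendsto (fun q : ℝ × ℝ => -1 + C * (q.1 + q.2)) (𝓝[>] (0 : ℝ) ×ˢ 𝓝[>] (0 : ℝ))
      (𝓝 (-1 + C * (0 + 0))) :=
    tendsto_const_nhds.add (((tendsto_fst.mono_right nhdsWithin_le_nhds).add
      (tendsto_snd.mono_right nhdsWithin_le_nhds)).const_mul C)
  rw [add_zero, mul_zero, add_zero] at t
  refine tendsto_of_tendsto_of_tendsto_of_le_of_le' tendsto_const_nhds t ?_ ?_
  · filter_upwards [ev_mem ha hb] with q hq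
    obtain ⟨-, h2, h3⟩ := h q hq.1 hq.2
    rw [le_div_iff₀ (by have := hq.1.1; have := hq.2.1; positivity)]
    nlinarith
  · filter_upwards [ev_mem ha hb] with q hq
    obtain ⟨h1, h2, h3⟩ := h q hq.1 hq.2
    have p1 := hq.1.1
    have p2 := hq.2.1
    rw [div_le_iff₀ (by positivity)]
    have k : 0 ≤ C * (q.1 * q.2) := by positivity
    nlinarith [mul_le_mul (show q.1 + q.2 - D q ≤ C * (q.1 * q.2) by linarith)
      (show q.1 + q.2 + D q ≤ 2 * (q.1 + q.2) by linarith) (by linarith) k]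

theorem arccos_abs {s t : ℝ} (hs : 0 < s) (ht : 0 < t) :
    Real.arccos ((s ^ 2 + t ^ 2 - |s - t| ^ 2) / (2 * s * t)) = 0 := by
  rw [sq_abs, show (s ^ 2 + t ^ 2 - (s - t) ^ 2) / (2 * s * t) = 1 by field_simp; ring,
    Real.arccos_one]

theorem big_angle : 2 * Real.pi / 3 <
    Real.arccos (((1 / 10 : ℝ) ^ 2 + (1 / 10) ^ 2 - (9 / 50) ^ 2) / (2 * (1 / 10) * (1 / 10))) := by
  have : Real.arccos (-(1 / 2)) = 2 * Real.pi / 3 := by
    rw [Real.arccos_neg, ← Real.cos_pi_div_three, Real.arccos_cos (by positivity)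
      (by linarith [Real.pi_pos])]
    ring
  rw [← this]
  exact Real.arccos_lt_arccos (by norm_num) (by norm_num) (by norm_num)

end Pool.Agent.H877Z.Hinge
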