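import Pool.Agent.H877Z.Hinge.Sys

set_option autoImplicit false

open Set Filter Topology MeasureTheory

noncomputable section

namespace Pool.Agent.H877Z.Hinge

theorem on_left (a : M × M) {w : M} (h : dist a.1 w = 0) : On a w :=
  ⟨0, by rw [arc, mix_zero, dist_comm, h]⟩

theorem on_right (a : M × M) {w : M} (h : dist a.2 w = 0) : On a w :=
  ⟨1, by rw [← mix_one (io (.inl a)) a.1 a.2]; exact dist_congr (by rwa [dist_comm]) (dist_self _)⟩

theorem On.congr {a : M × M} {w w' : M} (h : On a w) (e : dist w w' = 0) : On a w' := by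
  obtain ⟨t, ht⟩ := h
  exact ⟨t, by rw [← dist_congr e (dist_self _), ht]⟩

/-- two points of a good system that lie on no common arc -/
structure Gap (S : Sys) (x y : M) : Prop where
  good : Good S
  hx : x ∈ S.X
  hy : y ∈ S.X
  pos : 0 < dist x y
  no : ∀ a ∈ S.A, On a x → On a y → False

namespace Gap

variable {S : Sys} {x y : M}

theorem symm (G : Gap S x y) : Gap S y x :=
  ⟨G.good, G.hy, G.hx, by rw [dist_comm]; exact G.pos, fun a ha h h' => G.no a ha h' h⟩

theorem fresh (G : Gap S x y) : io (.inl (x, y)) ∉ S.J := fun h =>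
  G.no _ ((S.mem_J _).1 h) (on_left _ (dist_self _)) (on_right _ (dist_self _))

theorem K2 (G : Gap S x y) {v : M} (hv : v ∈ S.X) (h : dist x v + dist x y = dist y v) :
    dist x v = 0 := by
  by_contra hc
  obtain ⟨a, ha, -, h2, h3⟩ := G.good.btw v hv x G.hx y G.hy
    (by rw [dist_comm v, dist_comm v, h]) (by
      rw [dist_comm]; exact lt_of_le_of_ne dist_nonneg (Ne.symm hc)) G.pos
  exact G.no a ha h2 h3

theorem K3 (G : Gap S x y) {v w : M} (hv : v ∈ S.X) (hw : w ∈ S.X)
    (h : dist x v + dist x w = dist v w) (h' : dist y v + dist y w = dist v w) :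
    (dist x v = 0 ∧ dist y w = 0) ∨ (dist y v = 0 ∧ dist x w = 0) := by
  have A : ∀ {x y v w : M}, Gap S x y → w ∈ S.X → dist x v + dist x w = dist v w →
      dist y v + dist y w = dist v w → dist x v = 0 → dist y w = 0 := fun {x y v w} G hw h h' e => by
    refine G.symm.K2 hw ?_
    have := dist_congr (dist_self y) e
    linarith
  rcases eq_or_lt_of_le (dist_nonneg (x := x) (y := v)) with e1 | e1
  · exact .inl ⟨e1.symm, A G hw h h' e1.symm⟩
  rcases eq_or_lt_of_le (dist_nonneg (x := y) (y := v)) with e2 | e2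
  · exact .inr ⟨e2.symm, A G.symm hw h' h e2.symm⟩
  rw [dist_comm v w, add_comm] at h h'
  rcases eq_or_lt_of_le (dist_nonneg (x := x) (y := w)) with e3 | e3
  · exact .inr ⟨A G hv h h' e3.symm, e3.symm⟩
  rcases eq_or_lt_of_le (dist_nonneg (x := y) (y := w)) with e4 | e4
  · exact .inl ⟨A G.symm hv h' h e4.symm, e4.symm⟩
  obtain ⟨a, ha, a1, a2, a3⟩ := G.good.btw w hw x G.hx v hv (by rwa [dist_comm w x])
    (by rwa [dist_comm]) e1
  obtain ⟨b, hb, b1, b2, b3⟩ := G.good.btw w hw y G.hy v hv (by rwa [dist_comm w y])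
    (by rwa [dist_comm]) e2
  obtain rfl := G.good.uniq a ha b hb w v a1 a3 b1 b3 (by linarith)
  exact (G.no a ha a2 b2).elim

theorem K4 (G : Gap S x y) {v w : M} (hv : v ∈ S.X) (hw : w ∈ S.X) (p : 0 < dist v w)
    (h : dist x v + dist v w = dist x w) (h' : dist y v + dist v w = dist y w) : False := by
  have A : ∀ {x y : M}, Gap S x y → dist x v + dist v w = dist x w →
      dist y v + dist v w = dist y w → dist x v = 0 → False := fun {x y} G h h' e => by
    have k := dist_congr (dist_self y) e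
    have := G.K2 hw (by rw [dist_comm x y]; linarith)
    linarith
  rcases eq_or_lt_of_le (dist_nonneg (x := x) (y := v)) with e1 | e1
  · exact A G h h' e1.symm
  rcases eq_or_lt_of_le (dist_nonneg (x := y) (y := v)) with e2 | e2
  · exact A G.symm h' h e2.symm
  obtain ⟨a, ha, a1, a2, a3⟩ := G.good.btw x G.hx v hv w hw h e1 p
  obtain ⟨b, hb, b1, b2, b3⟩ := G.good.btw y G.hy v hv w hw h' e2 p
  obtain rfl := G.good.uniq a ha b hb v w a2 a3 b2 b3 p
  exact G.no a ha a1 b1

theorem arc_old (G : Gap S x y) (t : unitInterval) {v : M} (hv : v ∈ S.X) :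
    dist (arc (x, y) t) v = (1 - t) * dist x v + t * dist y v :=
  mix_dist G.fresh (G.good.dep x G.hx) (G.good.dep y G.hy) (G.good.dep v hv) t

theorem arc_arc (G : Gap S x y) (s t : unitInterval) :
    dist (arc (x, y) s) (arc (x, y) t) = |(s : ℝ) - t| * dist x y :=
  mix_dist_mix G.fresh (G.good.dep x G.hx) (G.good.dep y G.hy) s t

theorem cases (G : Gap S x y) {w : M} (hw : w ∈ S.X ∪ {w | On (x, y) w}) :
    w ∈ S.X ∨ ∃ t : unitInterval, 0 < (t : ℝ) ∧ (t : ℝ) < 1 ∧ dist w (arc (x, y) t) = 0 := by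
  rcases hw with h | ⟨t, ht⟩
  · exact .inl h
  rcases eq_or_lt_of_le t.2.1 with e | e
  · refine .inl (mem_of_dist G.good.closed G.hx ?_)
    rw [dist_congr ht (dist_self x), G.arc_old t G.hx, ← e]; simp
  rcases eq_or_lt_of_le t.2.2 with e' | e'
  · refine .inl (mem_of_dist G.good.closed G.hy ?_)
    rw [dist_congr ht (dist_self y), G.arc_old t G.hy, e']; simp
  exact .inr ⟨t, e, e', ht⟩

theorem ends (G : Gap S x y) {w : M} (hw : w ∈ S.X) (h : On (x, y) w) :
    dist x w = 0 ∨ dist y w = 0 := by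
  obtain ⟨t, ht⟩ := h
  rw [dist_comm, G.arc_old t hw] at ht
  have a := mul_nonneg (sub_nonneg.2 t.2.2) (dist_nonneg (x := x) (y := w))
  have b := mul_nonneg t.2.1 (dist_nonneg (x := y) (y := w))
  rcases eq_or_lt_of_le t.2.1 with e | e
  · left; rw [← e] at ht; simpa using ht
  · right; exact (mul_eq_zero.1 (show (t : ℝ) * dist y w = 0 by linarith)).resolve_left e.ne'

theorem noo (G : Gap S x y) {u v w : M} {t : unitInterval} (t0 : 0 < (t : ℝ)) (t1 : (t : ℝ) < 1)
    (hu : dist u (arc (x, y) t) = 0) (hv : v ∈ S.X) (hw : w ∈ S.X)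
    (h : dist u v + dist v w = dist u w) (p : 0 < dist v w) : False := by
  rw [dist_congr hu (dist_self v), dist_congr hu (dist_self w), G.arc_old t hv, G.arc_old t hw] at h
  have a := dist_triangle x v w
  have b := dist_triangle y v w
  have a' := mul_nonneg (sub_nonneg.2 t1.le) (sub_nonneg.2 a)
  have b' := mul_nonneg t0.le (sub_nonneg.2 b)
  refine G.K4 hv hw p ?_ ?_
  · have : (1 - (t : ℝ)) * (dist x v + dist v w - dist x w) = 0 := by linarith
    linarith [(mul_eq_zero.1 this).resolve_left (by linarith)]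
  · have : (t : ℝ) * (dist y v + dist v w - dist y w) = 0 := by linarith
    linarith [(mul_eq_zero.1 this).resolve_left t0.ne']

theorem nno (G : Gap S x y) {u v w : M} {s t : unitInterval} (hu : dist u (arc (x, y) s) = 0)
    (hv : dist v (arc (x, y) t) = 0) (hw : w ∈ S.X) (h : dist u v + dist v w = dist u w)
    (p : 0 < dist u v) : On (x, y) w := by
  rw [dist_congr hu hv, G.arc_arc] at h p
  rw [dist_congr hu (dist_self w), dist_congr hv (dist_self w), G.arc_old t hw, G.arc_old s hw] at h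
  rcases lt_trichotomy (s : ℝ) t with e | e | e
  · rw [abs_of_neg (sub_neg.2 e)] at h
    refine on_right _ (G.symm.K2 hw ?_)
    have : ((t : ℝ) - s) * (dist y w + dist y x - dist x w) = 0 := by rw [dist_comm y x]; linarith
    linarith [(mul_eq_zero.1 this).resolve_left (by linarith)]
  · simp [e] at p
  · rw [abs_of_pos (sub_pos.2 e)] at h
    refine on_left _ (G.K2 hw ?_)
    have : ((s : ℝ) - t) * (dist x w + dist x y - dist y w) = 0 := by linarith
    linarith [(mul_eq_zero.1 this).resolve_left (by linarith)]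

theorem btw (G : Gap S x y) {u v w : M} (hu : u ∈ S.X ∪ {w | On (x, y) w})
    (hv : v ∈ S.X ∪ {w | On (x, y) w}) (hw : w ∈ S.X ∪ {w | On (x, y) w})
    (h : dist u v + dist v w = dist u w) (p : 0 < dist u v) (q : 0 < dist v w) :
    ∃ a ∈ insert (x, y) S.A, On a u ∧ On a v ∧ On a w := by
  have h' : dist w v + dist v u = dist w u := by
    rw [dist_comm w v, dist_comm v u, dist_comm w u]; linarith
  rcases G.cases hu with hu | ⟨r, r0, r1, hu⟩ <;> rcases G.cases hv with hv | ⟨s, s0, s1, hv⟩ <;>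
    rcases G.cases hw with hw | ⟨t, t0, t1, hw⟩
  · obtain ⟨a, ha, k⟩ := G.good.btw u hu v hv w hw h p q
    exact ⟨a, .inr ha, k⟩
  · exact (G.noo t0 t1 hw hv hu h' (by rwa [dist_comm])).elim
  · rw [dist_comm u v, dist_congr hv (dist_self u), dist_congr hv (dist_self w), G.arc_old s hu,
      G.arc_old s hw] at h
    have a := dist_triangle_left u w x
    have b := dist_triangle_left u w y
    have a' := mul_nonneg (sub_nonneg.2 s1.le) (sub_nonneg.2 a)
    have b' := mul_nonneg s0.le (sub_nonneg.2 b)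
    have e1 : (1 - (s : ℝ)) * (dist x u + dist x w - dist u w) = 0 := by linarith
    have e2 : (s : ℝ) * (dist y u + dist y w - dist u w) = 0 := by linarith
    rcases G.K3 hu hw (by linarith [(mul_eq_zero.1 e1).resolve_left (by linarith)])
      (by linarith [(mul_eq_zero.1 e2).resolve_left s0.ne']) with k | k
    · exact ⟨_, .inl rfl, on_left _ k.1, ⟨s, hv⟩, on_right _ k.2⟩
    · exact ⟨_, .inl rfl, on_right _ k.1, ⟨s, hv⟩, on_left _ k.2⟩
  · exact ⟨_, .inl rfl, G.nno hw hv hu h' (by rwa [dist_comm]), ⟨s, hv⟩, ⟨t, hw⟩⟩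
  · exact (G.noo r0 r1 hu hv hw h q).elim
  · exfalso
    rw [dist_comm v w, dist_congr hu hw, dist_congr hu (dist_self v), dist_congr hw (dist_self v),
      G.arc_old r hv, G.arc_old t hv, G.arc_arc] at h
    have a := dist_triangle_right x y v
    have d := G.pos
    have a0 := dist_nonneg (x := x) (y := v)
    have b0 := dist_nonneg (x := y) (y := v)
    have c1 : |(r : ℝ) - t| < 2 - r - t := abs_lt.2 ⟨by linarith, by linarith⟩
    have c2 : |(r : ℝ) - t| < r + t := abs_lt.2 ⟨by linarith, by linarith⟩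
    have k := mul_le_mul_of_nonneg_left a (abs_nonneg ((r : ℝ) - t))
    have k1 := mul_nonneg (sub_nonneg.2 c1.le) a0
    have k2 := mul_nonneg (sub_nonneg.2 c2.le) b0
    have e1 : (2 - r - t - |(r : ℝ) - t|) * dist x v = 0 := by linarith
    have e2 : (r + t - |(r : ℝ) - t|) * dist y v = 0 := by linarith
    linarith [(mul_eq_zero.1 e1).resolve_left (by linarith),
      (mul_eq_zero.1 e2).resolve_left (by linarith)]
  · exact ⟨_, .inl rfl, ⟨r, hu⟩, ⟨s, hv⟩, G.nno hu hv hw h p⟩
  · exact ⟨_, .inl rfl, ⟨r, hu⟩, ⟨s, hv⟩, ⟨t, hw⟩⟩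

theorem uniq (G : Gap S x y) {b : M × M} (hb : b ∈ S.A) {p q : M} (h1 : On (x, y) p)
    (h2 : On (x, y) q) (h3 : On b p) (h4 : On b q) (h : 0 < dist p q) : False := by
  rcases G.ends (G.good.on_mem hb h3) h1 with e | e <;>
    rcases G.ends (G.good.on_mem hb h4) h2 with e' | e'
  · rw [← dist_congr e e', dist_self] at h; exact lt_irrefl _ h
  · exact G.no b hb (h3.congr (by rwa [dist_comm])) (h4.congr (by rwa [dist_comm]))
  · exact G.no b hb (h4.congr (by rwa [dist_comm])) (h3.congr (by rwa [dist_comm]))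
  · rw [← dist_congr e e', dist_self] at h; exact lt_irrefl _ h

theorem ang (G : Gap S x y) {b : M × M} (hb : b ∈ S.A) {z : M} (h1 : On (x, y) z) (h2 : On b z)
    {p q : M} (hp : On (x, y) p) (hq : On b q) :
    dist p z + dist z q - 2 / dist x y * (dist p z * dist z q) ≤ dist p q := by
  obtain ⟨t, ht⟩ := hp
  have hq' := G.good.on_mem hb hq
  have d := G.pos
  have a := dist_triangle_right x y q
  rw [dist_congr ht (dist_self q), G.arc_old t hq']
  rcases G.ends (G.good.on_mem hb h2) h1 with e | e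
  · rw [← dist_congr (dist_self p) e, ← dist_congr e (dist_self q), dist_congr ht (dist_self x),
      G.arc_old t G.hx, dist_self, dist_comm y x]
    have : 2 / dist x y * (((1 - t) * 0 + t * dist x y) * dist x q) = 2 * t * dist x q := by
      field_simp; ring
    nlinarith [mul_le_mul_of_nonneg_left a t.2.1]
  · rw [← dist_congr (dist_self p) e, ← dist_congr e (dist_self q), dist_congr ht (dist_self y),
      G.arc_old t G.hy, dist_self]
    have : 2 / dist x y * (((1 - t) * dist x y + t * 0) * dist y q) = 2 * (1 - t) * dist y q := by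
      field_simp; ring
    nlinarith [mul_le_mul_of_nonneg_left a (sub_nonneg.2 t.2.2)]

theorem step (G : Gap S x y) : ∃ T, Good T ∧ Le S T ∧ (x, y) ∈ T.A := by
  let T : Sys := ⟨S.X ∪ {w | On (x, y) w}, insert (x, y) S.A⟩
  have hJ : S.J ⊆ T.J := Sys.J_mono (subset_insert _ _)
  have g := G.good
  have cont : Continuous (arc (x, y)) := (LipschitzWith.of_dist_le_mul (K := 1) fun s t => by
    rw [G.arc_arc, NNReal.coe_one, one_mul]
    exact mul_le_of_le_one_right (abs_nonneg _) (dist_le_one _ _)).continuous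
  have cl : {w | On (x, y) w} = closure (range (arc (x, y))) := by
    ext w
    rw [(isCompact_range cont).mem_closure_iff_exists_inseparable]
    simp only [Metric.inseparable_iff, exists_range_iff, dist_comm _ w]
    rfl
  refine ⟨T, ⟨g.closed.union (cl ▸ isClosed_closure), .inl g.bot, fun k => .inl (g.pt k), ?_, ?_, ?_,
    ?_, fun u hu v hv w hw => G.btw hu hv hw, ?_, ?_⟩,
    ⟨subset_union_left, subset_insert _ _, ?_⟩, .inl rfl⟩
  · rintro w (hw | ⟨t, ht⟩)
    · exact (g.dep w hw).mono hJ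
    · exact mem_of_dist (dep_closed _) (Dep.mix ((T.mem_J _).2 (.inl rfl))
        ((g.dep x G.hx).mono hJ) ((g.dep y G.hy).mono hJ) t) ht
  · rintro a (rfl | ha) t
    · exact .inr ⟨t, dist_self _⟩
    · exact .inl (g.arc_mem a ha t)
  · rintro a (rfl | ha)
    · exact G.pos
    · exact g.pos a ha
  · rintro a (rfl | ha)
    · exact G.arc_arc
    · exact g.arc_dist a ha
  · rintro a (rfl | ha) b (rfl | hb) p q h1 h2 h3 h4 h
    · rfl
    · exact (G.uniq hb h1 h2 h3 h4 h).elim
    · exact (G.uniq ha h3 h4 h1 h2 h).elim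
    · exact g.uniq a ha b hb p q h1 h2 h3 h4 h
  · have d := G.pos
    rintro a (rfl | ha) b (rfl | hb) hab z h1 h2
    · exact (hab rfl).elim
    · exact ⟨_, by positivity, fun p q hp hq => G.ang hb h1 h2 hp hq⟩
    · refine ⟨2 / dist x y, by positivity, fun p q hp hq => ?_⟩
      have := G.ang ha h2 h1 hq hp
      rw [dist_comm q z, dist_comm z p, dist_comm q p] at this
      linarith [mul_comm (dist p z) (dist z q)]
    · exact g.ang a ha b hb hab z h1 h2
  · rintro w (hw | ⟨t, ht⟩)
    · exact g.self_Z hw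
    · refine ⟨{x, y}, pair_subset G.hx G.hy, (finite_singleton y).countable.insert x,
        insert_nonempty _ _, ?_⟩
      rw [mem_ofPred_eq]
      filter_upwards [sec_congr S.J ht, g.dep x G.hx, g.dep y G.hy] with b h1 h2 h3
      rw [arc, sec_mix G.fresh] at h1
      refine le_antisymm ?_ Metric.infDist_nonneg
      split_ifs at h1
      · exact (Metric.infDist_le_dist_of_mem (.inr rfl)).trans
          ((dist_congr h1 (dist_self y)).trans h3).le
      · exact (Metric.infDist_le_dist_of_mem (.inl rfl)).trans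
          ((dist_congr h1 (dist_self x)).trans h2).le

end Gap

theorem dep_bot (J : Set Ix) : Dep J bot := Eventually.of_forall fun _ => dist_self bot

theorem dep_top (J : Set Ix) : Dep J top := Eventually.of_forall fun _ => dist_self top

theorem top_bot : dist top bot = 1 := by
  rw [MeasuredSets.dist_def]
  change mu.real (symmDiff univ ∅) = 1
  simp [symmDiff_def]

theorem pt_bot (k : Fin 3) : dist (pt k) bot = 1 / 10 := by
  rw [pt, mix_dist (J := ∅) (notMem_empty _) (dep_bot _) (dep_top _) (dep_bot _), top_bot]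
  simp [tenth]

theorem pt_top (k : Fin 3) : dist (pt k) top = 9 / 10 := by
  rw [pt, mix_dist (J := ∅) (notMem_empty _) (dep_bot _) (dep_top _) (dep_top _), dist_comm,
    top_bot]
  simp [tenth]; norm_num

theorem pt_pt {k l : Fin 3} (h : k ≠ l) : dist (pt k) (pt l) = 9 / 50 := by
  have d : Dep {io (.inr l)} (pt l) := Dep.mix rfl (dep_bot _) (dep_top _) _
  rw [pt, mix_dist (J := {io (.inr l)}) (fun e => h (by simpa using e)) (dep_bot _) (dep_top _) d,
    dist_comm bot, dist_comm top, pt_bot, pt_top]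
  simp [tenth]; norm_num

theorem exists_good : ∃ S, Good S := by
  let P : Set M := insert bot (range pt)
  have cP : IsCompact P := ((finite_range pt).insert bot).isCompact
  have hP : ∀ u ∈ closure P, ∀ v ∈ closure P, dist u v ≤ 9 / 50 ∧ (0 < dist u v → 1 / 10 ≤ dist u v) := by
    intro u hu v hv
    obtain ⟨a, ha, e⟩ := cP.mem_closure_iff_exists_inseparable.1 hu
    obtain ⟨b, hb, e'⟩ := cP.mem_closure_iff_exists_inseparable.1 hv
    rw [← dist_congr (Metric.inseparable_iff.1 e) (Metric.inseparable_iff.1 e')]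
    rcases ha with rfl | ⟨k, rfl⟩ <;> rcases hb with rfl | ⟨l, rfl⟩
    · norm_num
    · rw [dist_comm, pt_bot]; norm_num
    · rw [pt_bot]; norm_num
    · by_cases h : k = l
      · rw [h]; norm_num
      · rw [pt_pt h]; norm_num
  refine ⟨⟨closure P, ∅⟩, isClosed_closure, subset_closure (.inl rfl),
    fun k => subset_closure (.inr ⟨k, rfl⟩), fun w hw => closure_minimal (t := {p | Dep _ p}) ?_
      (dep_closed _) hw, by simp, by simp, by simp, fun u hu v hv w hw h p q => ?_, by simp, by simp⟩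
  · rintro _ (rfl | ⟨k, rfl⟩)
    · exact dep_bot _
    · exact Dep.mix (mem_image_of_mem _ (by simp)) (dep_bot _) (dep_top _) _
  · linarith [(hP u hu v hv).2 p, (hP v hv w hw).2 q, (hP u hu w hw).1]

theorem exists_max : ∃ S, Good S ∧ ∀ x ∈ S.X, ∀ y ∈ S.X, 0 < dist x y →
    ∃ a ∈ S.A, On a x ∧ On a y := by
  obtain ⟨m, hm⟩ := exists_maximal_of_chains_bounded (α := {S // Good S})
    (r := fun S T => Le S.1 T.1) (fun c hc => by
      rcases c.eq_empty_or_nonempty with rfl | hn
      · obtain ⟨S, hS⟩ := exists_good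
        exact ⟨⟨S, hS⟩, by simp⟩
      obtain ⟨T, hT, h⟩ := limit (c := Subtype.val '' c) (by rintro _ ⟨S, -, rfl⟩; exact S.2) (by
        rintro _ ⟨S, hS, rfl⟩ _ ⟨S', hS', rfl⟩
        have r : ∀ S : {S // Good S}, Le S.1 S.1 := fun S =>
          ⟨subset_rfl, subset_rfl, fun w hw => S.2.self_Z hw⟩
        by_cases e : S = S'
        · exact ⟨_, ⟨S, hS, rfl⟩, r S, e ▸ r S⟩
        rcases hc hS hS' e with l | l
        · exact ⟨_, ⟨S', hS', rfl⟩, l, r S'⟩
        · exact ⟨_, ⟨S, hS, rfl⟩, r S, l⟩) (hn.image _)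
      exact ⟨⟨T, hT⟩, fun S hS => h _ ⟨S, hS, rfl⟩⟩) Le.trans
  refine ⟨m.1, m.2, fun x hx y hy p => ?_⟩
  by_contra hc
  have G : Gap m.1 x y := ⟨m.2, hx, hy, p, fun a ha h h' => hc ⟨a, ha, h, h'⟩⟩
  obtain ⟨T, hT, l, k⟩ := G.step
  exact G.fresh ((m.1.mem_J _).2 ((hm ⟨T, hT⟩ l).2.1 k))

end Pool.Agent.H877Z.Hinge
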