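import Pool.Agent.H877Z.Hinge.Alg

set_option autoImplicit false

open Set Filter Topology MeasureTheory
open scoped symmDiff

noncomputable section

namespace Pool.Agent.H877Z.Hinge

/-- a fixed supply of fresh coordinates -/
def io : (M × M) ⊕ Fin 3 ↪ Ix := Classical.choice exists_emb

/-- the arc with endpoints `a.1` and `a.2` -/
def arc (a : M × M) (t : unitInterval) : M := mix (io (.inl a)) a.1 a.2 t

/-- `w` lies on the arc -/
def On (a : M × M) (w : M) : Prop := ∃ t, dist w (arc a t) = 0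

/-- the empty set -/
def bot : M := ⟨∅, MeasurableSet.empty⟩

/-- the whole space -/
def top : M := ⟨univ, MeasurableSet.univ⟩

/-- one tenth -/
def tenth : unitInterval := ⟨1 / 10, by norm_num, by norm_num⟩

/-- three independent sets of measure one tenth -/
def pt (k : Fin 3) : M := mix (io (.inr k)) bot top tenth

/-- a set of points with a set of arcs -/
structure Sys where
  X : Set M
  A : Set (M × M)

/-- the coordinates used -/
def Sys.J (S : Sys) : Set Ix := io '' {z | ∀ a, z = .inl a → a ∈ S.A}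

theorem Sys.J_mono {S T : Sys} (h : S.A ⊆ T.A) : S.J ⊆ T.J :=
  image_mono fun _ hz a e => h (hz a e)

theorem Sys.mem_J (S : Sys) (a : M × M) : io (.inl a) ∈ S.J ↔ a ∈ S.A := by
  rw [Sys.J, io.injective.mem_set_image]
  exact ⟨fun h => h a rfl, fun h b e => by cases e; exact h⟩

/-- the invariants -/
structure Good (S : Sys) : Prop where
  closed : IsClosed S.X
  bot : bot ∈ S.X
  pt : ∀ k, pt k ∈ S.X
  dep : ∀ w ∈ S.X, Dep S.J w
  arc_mem : ∀ a ∈ S.A, ∀ t, arc a t ∈ S.X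
  pos : ∀ a ∈ S.A, 0 < dist a.1 a.2
  arc_dist : ∀ a ∈ S.A, ∀ s t, dist (arc a s) (arc a t) = |(s : ℝ) - t| * dist a.1 a.2
  btw : ∀ u ∈ S.X, ∀ v ∈ S.X, ∀ w ∈ S.X, dist u v + dist v w = dist u w → 0 < dist u v →
    0 < dist v w → ∃ a ∈ S.A, On a u ∧ On a v ∧ On a w
  uniq : ∀ a ∈ S.A, ∀ b ∈ S.A, ∀ p q, On a p → On a q → On b p → On b q → 0 < dist p q → a = b
  ang : ∀ a ∈ S.A, ∀ b ∈ S.A, a ≠ b → ∀ z, On a z → On b z → ∃ C, 0 ≤ C ∧ ∀ p q, On a p → On b q →
    dist p z + dist z q - C * (dist p z * dist z q) ≤ dist p q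

theorem Good.on_mem {S : Sys} (h : Good S) {a : M × M} (ha : a ∈ S.A) {w : M} (hw : On a w) :
    w ∈ S.X := by
  obtain ⟨t, ht⟩ := hw
  exact mem_of_dist h.closed (h.arc_mem a ha t) ht

/-- the extension relation -/
def Le (S T : Sys) : Prop := S.X ⊆ T.X ∧ S.A ⊆ T.A ∧
  ∀ w ∈ T.X, ∃ D ⊆ S.X, D.Countable ∧ D.Nonempty ∧ w ∈ Z S.J D

theorem Good.self_Z {S : Sys} (h : Good S) {w : M} (hw : w ∈ S.X) :
    ∃ D ⊆ S.X, D.Countable ∧ D.Nonempty ∧ w ∈ Z S.J D :=
  ⟨{w}, singleton_subset_iff.2 hw, countable_singleton w, singleton_nonempty w, by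
    rw [mem_ofPred_eq]
    filter_upwards [h.dep w hw] with b hb
    rwa [Metric.infDist_singleton]⟩

theorem union_Z {J : Set Ix} {X E : Set M} (hE : E.Countable) (hn : E.Nonempty)
    (h : ∀ w ∈ E, ∃ D ⊆ X, D.Countable ∧ D.Nonempty ∧ w ∈ Z J D) :
    ∃ D ⊆ X, D.Countable ∧ D.Nonempty ∧ closure E ⊆ Z J D := by
  choose! D h1 h2 h3 h4 using h
  have c : (⋃ w ∈ E, D w).Countable := hE.biUnion h2
  have n : (⋃ w ∈ E, D w).Nonempty := (h3 _ hn.some_mem).mono (subset_biUnion_of_mem hn.some_mem)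
  exact ⟨⋃ w ∈ E, D w, iUnion₂_subset h1, c, n, closure_minimal
    (fun w hw => Z_mono J (h3 w hw) (subset_biUnion_of_mem hw) (h4 w hw)) (Z_closed J c n)⟩

theorem Le.trans {S T U : Sys} (h : Le S T) (h' : Le T U) : Le S U := by
  refine ⟨h.1.trans h'.1, h.2.1.trans h'.2.1, fun w hw => ?_⟩
  obtain ⟨E, e1, e2, e3, e4⟩ := h'.2.2 w hw
  obtain ⟨D, d1, d2, d3, d4⟩ := union_Z e2 e3 fun v hv => h.2.2 v (e1 hv)
  refine ⟨D, d1, d2, d3, ae_pw T.J ((meas_inf S.J d2 w) (measurableSet_singleton 0)) ?_⟩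
  filter_upwards [e4] with c hc
  have := d4 ((Metric.mem_closure_iff_infDist_zero e3).2 hc)
  simpa only [mem_ofPred_eq, sec_sec (Sys.J_mono h.2.1)] using this

theorem Le.sec_mem {S T : Sys} (hS : Good S) (h : Le S T) {w : M} (hw : w ∈ T.X) :
    ∀ᵐ b ∂mu, sec S.J w b ∈ S.X := by
  obtain ⟨D, d1, -, d3, d4⟩ := h.2.2 w hw
  filter_upwards [d4] with b hb
  exact closure_minimal d1 hS.closed ((Metric.mem_closure_iff_infDist_zero d3).2 hb)

theorem degenerate {S T : Sys} (hS : Good S) (hT : Good T) {u v w : M} (hu : u ∈ T.X)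
    (hv : v ∈ T.X) (hw : w ∈ T.X) (h : dist u v + dist v w = dist u w)
    (hn : ¬ (u ∈ S.X ∧ v ∈ S.X ∧ w ∈ S.X)) :
    ∀ᵐ b ∂mu, ¬ (0 < dist (sec S.J u b) (sec S.J v b) ∧ 0 < dist (sec S.J v b) (sec S.J w b)) := by
  rcases eq_or_lt_of_le (dist_nonneg (x := u) (y := v)) with e | e
  · filter_upwards [sec_congr S.J e.symm] with b hb
    exact fun k => k.1.ne' hb
  rcases eq_or_lt_of_le (dist_nonneg (x := v) (y := w)) with e' | e'
  · filter_upwards [sec_congr S.J e'.symm] with b hb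
    exact fun k => k.2.ne' hb
  obtain ⟨a, -, h1, h2, h3⟩ := hT.btw u hu v hv w hw h e e'
  have ha : io (.inl a) ∉ S.J := fun k => hn
    ⟨hS.on_mem ((S.mem_J a).1 k) h1, hS.on_mem ((S.mem_J a).1 k) h2, hS.on_mem ((S.mem_J a).1 k) h3⟩
  obtain ⟨r, hr⟩ := h1
  obtain ⟨s, hs⟩ := h2
  obtain ⟨t, ht⟩ := h3
  filter_upwards [sec_congr S.J hr, sec_congr S.J hs, sec_congr S.J ht, sec_btw S.J h]
    with b k1 k2 k3 k4
  rw [dist_congr k1 k2, dist_congr k2 k3, dist_congr k1 k3] at *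
  simp only [arc, sec_mix ha] at k4 ⊢
  intro k
  split_ifs at k k4 <;> simp only [dist_self, lt_irrefl, false_and, and_false] at k k4 <;>
    linarith [k.1, k.2]

theorem limit_mem {c : Set Sys} (hc : ∀ S ∈ c, Good S) (hd : DirectedOn Le c) {T : Sys}
    (hT : ∀ S ∈ c, Le S T) (hX : T.X ⊆ closure (⋃ S ∈ c, S.X)) (hne : c.Nonempty)
    {u v w : M} (hu : u ∈ T.X) (hv : v ∈ T.X) (hw : w ∈ T.X)
    (h : dist u v + dist v w = dist u w) (h1 : 0 < dist u v) (h2 : 0 < dist v w) :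
    ∃ S ∈ c, u ∈ S.X ∧ v ∈ S.X ∧ w ∈ S.X := by
  have app : ∀ S ∈ c, ∀ ε > 0, ∃ S' ∈ c, Le S S' ∧ ∃ u' ∈ S'.X, ∃ v' ∈ S'.X, ∃ w' ∈ S'.X,
      dist u u' + dist v v' + dist w w' < ε := by
    intro S hS ε hε
    obtain ⟨u', a1, a2⟩ := Metric.mem_closure_iff.1 (hX hu) (ε / 3) (by positivity)
    obtain ⟨v', b1, b2⟩ := Metric.mem_closure_iff.1 (hX hv) (ε / 3) (by positivity)
    obtain ⟨w', c1, c2⟩ := Metric.mem_closure_iff.1 (hX hw) (ε / 3) (by positivity)
    obtain ⟨S1, m1, a1⟩ := mem_iUnion₂.1 a1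
    obtain ⟨S2, m2, b1⟩ := mem_iUnion₂.1 b1
    obtain ⟨S3, m3, c1⟩ := mem_iUnion₂.1 c1
    obtain ⟨S4, m4, l1, l2⟩ := hd S hS S1 m1
    obtain ⟨S5, m5, l3, l4⟩ := hd S2 m2 S3 m3
    obtain ⟨S6, m6, l5, l6⟩ := hd S4 m4 S5 m5
    exact ⟨S6, m6, l1.trans l5, u', l5.1 (l2.1 a1), v', l6.1 (l3.1 b1), w', l6.1 (l4.1 c1),
      by linarith⟩
  obtain ⟨S, hS, -, u', hu', v', hv', w', hw', k⟩ := app _ hne.some_mem
    (min (dist u v) (dist v w) / 2) (by positivity)
  refine ⟨S, hS, ?_⟩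
  by_contra hn
  have g := hc S hS
  obtain ⟨η, η0, hη⟩ : ∃ η > 0, ∀ a ∈ S.X, ∀ b ∈ S.X, ∀ c ∈ S.X,
      η ≤ dist a u + dist b v + dist c w := by
    have key : ∀ z ∉ S.X, ∃ η > 0, ∀ a ∈ S.X, η ≤ dist a z := fun z hz => by
      obtain ⟨η, η0, hη⟩ := Metric.isOpen_iff.1 g.closed.isOpen_compl z hz
      exact ⟨η, η0, fun a ha => not_lt.1 fun l => hη l ha⟩
    by_cases e1 : u ∈ S.X
    · by_cases e2 : v ∈ S.X
      · obtain ⟨η, η0, hη⟩ := key w fun e3 => hn ⟨e1, e2, e3⟩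
        exact ⟨η, η0, fun a _ b _ c hc => by
          linarith [hη c hc, dist_nonneg (x := a) (y := u), dist_nonneg (x := b) (y := v)]⟩
      · obtain ⟨η, η0, hη⟩ := key v e2
        exact ⟨η, η0, fun a _ b hb c _ => by
          linarith [hη b hb, dist_nonneg (x := a) (y := u), dist_nonneg (x := c) (y := w)]⟩
    · obtain ⟨η, η0, hη⟩ := key u e1
      exact ⟨η, η0, fun a ha b _ c _ => by
        linarith [hη a ha, dist_nonneg (x := b) (y := v), dist_nonneg (x := c) (y := w)]⟩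
  let E : M := ⟨{b | 0 < dist (sec S.J u b) (sec S.J v b) ∧ 0 < dist (sec S.J v b) (sec S.J w b)},
    (measurableSet_lt measurable_const (meas_dist _ _ _)).inter
      (measurableSet_lt measurable_const (meas_dist _ _ _))⟩
  have hE : η * mu.real (E : Set Om) ≤ 0 := le_of_forall_pos_le_add fun ε hε => by
    obtain ⟨S', hS', l, u', hu', v', hv', w', hw', k⟩ := app S hS (ε / 2) (by positivity)
    have g' := hc S' hS'
    have i3 := ((int_dist' S'.J u u).add (int_dist' S'.J v v)).add (int_dist' S'.J w w)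
    have m := integral_mono_ae (f := fun b => η * mu.real (sec S'.J E b : Set Om))
      ((integrable_bdd (meas_real S'.J E) (C := 1) fun _ => by
        rw [abs_of_nonneg measureReal_nonneg]; exact measureReal_le_one).const_mul η) i3 (by
      filter_upwards [(hT S' hS').sec_mem g' hu, (hT S' hS').sec_mem g' hv,
        (hT S' hS').sec_mem g' hw, sec_btw S'.J h] with b p1 p2 p3 p4
      simp only [Pi.add_apply]
      by_cases q : sec S'.J u b ∈ S.X ∧ sec S'.J v b ∈ S.X ∧ sec S'.J w b ∈ S.X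
      · exact (mul_le_of_le_one_right η0.le measureReal_le_one).trans (hη _ q.1 _ q.2.1 _ q.2.2)
      · have d := degenerate g g' p1 p2 p3 p4 q
        simp only [sec_sec (Sys.J_mono l.2.1), not_not, ae_iff] at d
        have : mu.real (sec S'.J E b : Set Om) = 0 := (measureReal_eq_zero_iff).2 d
        rw [this, mul_zero]
        positivity)
    simp only [Pi.add_apply] at m
    rw [integral_const_mul, ← real_eq, integral_add
      (f := fun b => dist (sec S'.J u b) u + dist (sec S'.J v b) v)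
      ((int_dist' S'.J u u).add (int_dist' S'.J v v)) (int_dist' S'.J w w),
      integral_add (int_dist' S'.J u u) (int_dist' S'.J v v)] at m
    linarith [(g'.dep u' hu').int_le u, (g'.dep v' hv').int_le v, (g'.dep w' hw').int_le w]
  have hE' : mu (E : Set Om) = 0 := (measureReal_eq_zero_iff).1
    (le_antisymm (le_of_mul_le_mul_left (by rwa [mul_zero]) η0) measureReal_nonneg)
  have i3 := ((int_dist' S.J u u').add (int_dist' S.J v v')).add (int_dist' S.J w w')
  have m := integral_mono_ae (integrable_const (min (dist u' v') (dist v' w'))) i3 (by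
    filter_upwards [measure_eq_zero_iff_ae_notMem.1 hE'] with b hb
    simp only [Pi.add_apply]
    have a1 := dist_triangle4 u' (sec S.J u b) (sec S.J v b) v'
    have a2 := dist_triangle4 v' (sec S.J v b) (sec S.J w b) w'
    rw [dist_comm u' (sec S.J u b)] at a1
    rw [dist_comm v' (sec S.J v b)] at a2
    rcases not_and_or.1 hb with e | e
    · exact (min_le_left _ _).trans
        (by linarith [not_lt.1 e, dist_nonneg (x := sec S.J w b) (y := w')])
    · exact (min_le_right _ _).trans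
        (by linarith [not_lt.1 e, dist_nonneg (x := sec S.J u b) (y := u')]))
  simp only [Pi.add_apply] at m
  rw [integral_add (f := fun b => dist (sec S.J u b) u' + dist (sec S.J v b) v')
      ((int_dist' S.J u u').add (int_dist' S.J v v')) (int_dist' S.J w w'),
    integral_add (int_dist' S.J u u') (int_dist' S.J v v'), ← (g.dep u' hu').dist_eq,
    ← (g.dep v' hv').dist_eq, ← (g.dep w' hw').dist_eq] at m
  simp only [integral_const, probReal_univ, one_smul] at m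
  have a1 := dist_triangle4 u u' v' v
  have a2 := dist_triangle4 v v' w' w
  rw [dist_comm v' v] at a1
  rw [dist_comm w' w] at a2
  rcases min_le_iff.1 m with e | e
  · linarith [min_le_left (dist u v) (dist v w), dist_nonneg (x := w) (y := w')]
  · linarith [min_le_right (dist u v) (dist v w), dist_nonneg (x := u) (y := u')]

theorem limit {c : Set Sys} (hc : ∀ S ∈ c, Good S) (hd : DirectedOn Le c) (hne : c.Nonempty) :
    ∃ T, Good T ∧ ∀ S ∈ c, Le S T := by
  let T : Sys := ⟨closure (⋃ S ∈ c, S.X), ⋃ S ∈ c, S.A⟩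
  have hX : ∀ S ∈ c, S.X ⊆ T.X := fun S hS => (subset_biUnion_of_mem (u := Sys.X) hS).trans
    subset_closure
  have hA : ∀ S ∈ c, S.A ⊆ T.A := fun S hS => subset_biUnion_of_mem (u := Sys.A) hS
  have hT : ∀ S ∈ c, Le S T := fun S hS => ⟨hX S hS, hA S hS, fun w hw => by
    obtain ⟨x, x1, x2⟩ := mem_closure_iff_seq_limit.1 hw
    obtain ⟨D, d1, d2, d3, d4⟩ := union_Z (J := S.J) (X := S.X) (countable_range x)
      (range_nonempty x) (by
        rintro _ ⟨n, rfl⟩
        obtain ⟨S', m, k⟩ := mem_iUnion₂.1 (x1 n)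
        obtain ⟨S'', -, l1, l2⟩ := hd S hS S' m
        exact l1.2.2 _ (l2.1 k))
    exact ⟨D, d1, d2, d3, d4 (mem_closure_of_tendsto x2 (Eventually.of_forall fun n => ⟨n, rfl⟩))⟩⟩
  have two : ∀ a ∈ T.A, ∀ b ∈ T.A, ∃ S ∈ c, a ∈ S.A ∧ b ∈ S.A := fun a ha b hb => by
    obtain ⟨S, m, k⟩ := mem_iUnion₂.1 ha
    obtain ⟨S', m', k'⟩ := mem_iUnion₂.1 hb
    obtain ⟨S'', m'', l1, l2⟩ := hd S m S' m'
    exact ⟨S'', m'', l1.2.1 k, l2.2.1 k'⟩
  refine ⟨T, ⟨isClosed_closure, hX _ hne.some_mem (hc _ hne.some_mem).bot,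
    fun k => hX _ hne.some_mem ((hc _ hne.some_mem).pt k),
    fun w hw => closure_minimal (t := {p | Dep T.J p}) (iUnion₂_subset fun S hS v hv =>
      ((hc S hS).dep v hv).mono (Sys.J_mono (hA S hS))) (dep_closed _) hw,
    fun a ha t => ?_, fun a ha => ?_, fun a ha => ?_, fun u hu v hv w hw h h1 h2 => ?_,
    fun a ha b hb => ?_, fun a ha b hb => ?_⟩, hT⟩
  · obtain ⟨S, m, k, -⟩ := two a ha a ha
    exact hX S m ((hc S m).arc_mem a k t)
  · obtain ⟨S, m, k, -⟩ := two a ha a ha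
    exact (hc S m).pos a k
  · obtain ⟨S, m, k, -⟩ := two a ha a ha
    exact (hc S m).arc_dist a k
  · obtain ⟨S, m, k1, k2, k3⟩ := limit_mem hc hd hT subset_rfl hne hu hv hw h h1 h2
    obtain ⟨a, ha, k⟩ := (hc S m).btw u k1 v k2 w k3 h h1 h2
    exact ⟨a, hA S m ha, k⟩
  · obtain ⟨S, m, k, k'⟩ := two a ha b hb
    exact (hc S m).uniq a k b k'
  · obtain ⟨S, m, k, k'⟩ := two a ha b hb
    exact (hc S m).ang a k b k'

end Pool.Agent.H877Z.Hinge
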